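import Pool.Agent.FU2.Defs
import Pool.Agent.Helper99_FUR.EXT

/-!
Strategy extraction: the list of the (inequivalent) premises of the reductions is a decision list
for the parity, whatever the substituted formulas are.
-/

set_option autoImplicit false

open Finset

namespace Pool.Agent.FU2.H42

open Pool.Agent.FUR Pool.Agent.FUR.H99

/-- the test: both values of the formula are true -/
def tt {n : ℕ} (L : PF) (x : Fin n → Bool) : Bool := L.eval (asg x false) && L.eval (asg x true)

/-- the formula `L` is the first one of the list for which the test fails -/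
def Fst {n : ℕ} (x : Fin n → Bool) (ls : List PF) : Prop :=
  ∃ j : Fin ls.length, tt (ls.get j) x = false ∧ (∀ i < j, tt (ls.get i) x = true) ∧
    (ls.get j).eval (asg x false) = par x

theorem fst_append {n : ℕ} {x : Fin n → Bool} {ls : List PF} (h : Fst x ls) (A : PF) :
    Fst x (ls ++ [A]) := by
  obtain ⟨j, h1, h2, h3⟩ := h
  have hlen : (ls ++ [A]).length = ls.length + 1 := by simp
  have hj : j.1 < (ls ++ [A]).length := by omega
  have hget : ∀ i : ℕ, ∀ hi : i < ls.length, ∀ hi' : i < (ls ++ [A]).length,
      (ls ++ [A]).get ⟨i, hi'⟩ = ls.get ⟨i, hi⟩ := by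
    intro i hi hi'
    simp only [List.get_eq_getElem]
    exact List.getElem_append_left hi
  refine ⟨⟨j.1, hj⟩, ?_, ?_, ?_⟩
  · rw [hget j.1 j.2]
    exact h1
  · intro i hi
    have hi2 : i.1 < ls.length := lt_trans hi j.2
    have := h2 ⟨i.1, hi2⟩ hi
    rw [← hget i.1 hi2 i.2] at this
    exact this
  · rw [hget j.1 j.2]
    exact h3

theorem fst_last {n : ℕ} {x : Fin n → Bool} {ls : List PF} (h : ∀ L ∈ ls, tt L x = true) (A : PF)
    (hA : tt A x = false) (hpar : A.eval (asg x false) = par x) : Fst x (ls ++ [A]) := by
  have hlen : (ls ++ [A]).length = ls.length + 1 := by simp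
  have hj : ls.length < (ls ++ [A]).length := by omega
  have hg : (ls ++ [A]).get ⟨ls.length, hj⟩ = A := by
    simp
  refine ⟨⟨ls.length, hj⟩, ?_, ?_, ?_⟩
  · rw [hg]
    exact hA
  · intro i hi
    have hi2 : i.1 < ls.length := hi
    have he : (ls ++ [A]).get i = ls.get ⟨i.1, hi2⟩ := by
      simp only [List.get_eq_getElem]
      exact List.getElem_append_left hi2
    rw [he]
    exact h _ (List.get_mem ls _)
  · rw [hg]
    exact hpar

theorem exp1 (hSEM : SEMStmt) (hMAT : MATStmt) (n : ℕ) (hn : 1 ≤ n) (R : Set Rule)
    (hR : ∀ r ∈ R, r.Sound) (P : Finset PF) (Λ : List PF) (k : ℕ) (h : RefP (QPar n) R P Λ k)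
    (hf : PF.cst false ∈ Λ) : ∃ ls : List PF, ls.Nodup ∧ (∀ L ∈ ls, L ∈ P) ∧
      ∀ x : Fin n → Bool, Fst x ls := by
  obtain ⟨s1, s2, s3, s4⟩ := hSEM
  have key : ∃ ls : List PF, ls.Nodup ∧ (∀ L ∈ ls, L ∈ P) ∧
      ∀ x : Fin n → Bool, Fst x ls ∨
        ((∀ L ∈ ls, tt L x = true) ∧ ∀ φ ∈ Λ, φ.eval (full x (!(par x))) = true) := by
    clear hf
    induction h with
    | nil =>
      refine ⟨[], List.nodup_nil, by simp, fun x => Or.inr ⟨by simp, by simp⟩⟩
    | clause h c hc ih =>
      obtain ⟨ls, hnd, hs, hx⟩ := ih
      refine ⟨ls, hnd, hs, fun x => ?_⟩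
      rcases hx x with h1 | ⟨h1, h2⟩
      · exact Or.inl h1
      · refine Or.inr ⟨h1, fun φ hφ => ?_⟩
        rcases List.mem_cons.1 hφ with rfl | hφ
        · exact hMAT n hn x c hc
        · exact h2 φ hφ
    | rule h r hr τ hp ih =>
      obtain ⟨ls, hnd, hs, hx⟩ := ih
      refine ⟨ls, hnd, hs, fun x => ?_⟩
      rcases hx x with h1 | ⟨h1, h2⟩
      · exact Or.inl h1
      · refine Or.inr ⟨h1, fun φ hφ => ?_⟩
        rcases List.mem_cons.1 hφ with rfl | hφ
        · rw [s1]
          refine hR r hr _ fun p hpp => ?_
          rw [← s1]
          exact h2 _ (hp p hpp)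
        · exact h2 φ hφ
    | @red Λ k h A hA u hu hin hlast C hC A' hP he ih =>
      obtain ⟨ls, hnd, hs, hx⟩ := ih
      have hun : u = n := univ_eq hu
      subst hun
      -- the value of the new line, if both values of `A` are true
      have hnew : ∀ x : Fin u → Bool, tt A' x = true →
          (A.sub1 u C).eval (full x (!(par x))) = true := by
        intro x ht
        have hCv : (A.sub1 u C).eval (full x (!(par x))) =
            A.eval (asg x (C.eval (full x (!(par x))))) := by
          rw [s2]
          refine s3 _ _ A fun v hv => ?_
          have hv' := hlast v hv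
          by_cases hvu : v = u
          · subst hvu
            rw [Function.update_self, asg_n]
          · rw [Function.update_of_ne hvu, asg_full x _ v hv']
            exact asg_lt x _ _ v (lt_of_le_of_ne hv' hvu)
        rw [hCv, ← he]
        have ht2 : A'.eval (asg x false) = true ∧ A'.eval (asg x true) = true := by
          unfold tt at ht
          rwa [Bool.and_eq_true] at ht
        cases C.eval (full x (!(par x)))
        · exact ht2.1
        · exact ht2.2
      by_cases hmem : A' ∈ ls
      · refine ⟨ls, hnd, hs, fun x => ?_⟩
        rcases hx x with h1 | ⟨h1, h2⟩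
        · exact Or.inl h1
        · refine Or.inr ⟨h1, fun φ hφ => ?_⟩
          rcases List.mem_cons.1 hφ with rfl | hφ
          · exact hnew x (h1 A' hmem)
          · exact h2 φ hφ
      · refine ⟨ls ++ [A'], ?_, ?_, fun x => ?_⟩
        · rw [List.nodup_append]
          refine ⟨hnd, List.nodup_singleton _, ?_⟩
          intro a ha b hb hab
          rw [List.mem_singleton] at hb
          exact hmem (hb ▸ hab ▸ ha)
        · intro L hL
          rcases List.mem_append.1 hL with h1 | h1
          · exact hs L h1
          · rw [List.mem_singleton] at h1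
            exact h1 ▸ hP
        · rcases hx x with h1 | ⟨h1, h2⟩
          · exact Or.inl (fst_append h1 A')
          · by_cases ht : tt A' x = true
            · refine Or.inr ⟨fun L hL => ?_, fun φ hφ => ?_⟩
              · rcases List.mem_append.1 hL with h3 | h3
                · exact h1 L h3
                · rw [List.mem_singleton] at h3
                  exact h3 ▸ ht
              · rcases List.mem_cons.1 hφ with rfl | hφ
                · exact hnew x ht
                · exact h2 φ hφ
            · have ht' : tt A' x = false := by
                cases hh : tt A' x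
                · rfl
                · exact absurd hh ht
              refine Or.inl (fst_last h1 A' ht' ?_)
              have h7 := h2 A hA
              have h8 : A.eval (full x (!(par x))) = A.eval (asg x (!(par x))) :=
                s3 _ _ A fun v hv => asg_full x _ v (hlast v hv)
              rw [h8, ← he] at h7
              unfold tt at ht'
              cases hp : par x
              · rw [hp] at h7
                cases h9 : A'.eval (asg x false)
                · rfl
                · rw [h9] at ht'
                  rw [Bool.true_and] at ht'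
                  have h10 : A'.eval (asg x true) = true := h7
                  rw [ht'] at h10
                  exact absurd h10 (by decide)
              · rw [hp] at h7
                exact h7
  obtain ⟨ls, hnd, hs, hx⟩ := key
  refine ⟨ls, hnd, hs, fun x => ?_⟩
  rcases hx x with h1 | ⟨-, h2⟩
  · exact h1
  · exact absurd (h2 _ hf) (by simp [PF.eval])

end Pool.Agent.FU2.H42
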