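import Pool.Agent.FU2.Stmts

/-!
Row FI2 of the squad FU2: assembly of the theorem (adapted from row FIN of the squad FUR).
-/

set_option autoImplicit false

open Finset

namespace Pool.Agent.FU2.H42

open Pool.Agent.FUR

theorem LC_mono {N : ℕ} {f : BF N} {s t : ℕ} (h : LC f s) (hst : s ≤ t) : LC f t := by
  obtain ⟨F, h1, h2⟩ := h
  exact ⟨F, h1, h2.trans hst⟩

theorem fi2 (hNQB : NQBStmt) (hGR2 : GR2Stmt) (hDL2 : DL2Stmt) (hNU2 : NU2Stmt)
    (hEXT : EXTStmt) (hPFM : PFMStmt) (hSZQ : SZQStmt) (hFLS : FLSStmt) : FI2Stmt := by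
  obtain ⟨c, hc, hN⟩ := hNU2
  refine ⟨c / 34 ^ 2, by positivity, fun n hn1 => ?_⟩
  obtain ⟨hsz, hcl⟩ := hSZQ n hn1
  refine ⟨hcl, hFLS n hn1, by omega, by omega, ?_⟩
  intro R hR s Λ k hs hΛ hbot
  by_contra hcon
  rw [not_le] at hcon
  have hns : n ≤ s := by omega
  have hsz34 : ((QPar n).size : ℝ) ≤ 34 * (n : ℝ) := by
    have : (QPar n).size ≤ 34 * n := by omega
    exact_mod_cast this
  have hlt : 2 * (k : ℝ) < (2 : ℝ) ^ (c * (n : ℝ) ^ 2 / s) := by
    refine hcon.trans_le (Real.rpow_le_rpow_of_exponent_le one_le_two ?_)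
    have h1 : ((QPar n).size : ℝ) ^ 2 ≤ (34 * (n : ℝ)) ^ 2 :=
      pow_le_pow_left₀ (by positivity) hsz34 2
    refine div_le_div_of_nonneg_right ?_ (by positivity)
    calc c / 34 ^ 2 * ((QPar n).size : ℝ) ^ 2 ≤ c / 34 ^ 2 * (34 * (n : ℝ)) ^ 2 :=
          mul_le_mul_of_nonneg_left h1 (by positivity)
      _ = c * (n : ℝ) ^ 2 := by ring
  obtain ⟨q, m, κ, hκ, hq, hqm, hmn, h5, hnum⟩ := hN n s k hn1 hns hlt
  obtain ⟨L, B, hLB, hlist⟩ := hEXT n hn1 R hR s Λ k hΛ hbot
  -- the functions
  let T0 : Fin k → BF n := fun j x => (L j).eval (asg x false)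
  let T1 : Fin k → BF n := fun j x => (L j).eval (asg x true)
  let B' : Fin k → BF n := fun j x => (B j).eval (asg x false)
  let F : Fin (3 * k) → BF n := fun i =>
    if (finProdFinEquiv.symm i).1 = 0 then T0 (finProdFinEquiv.symm i).2
    else if (finProdFinEquiv.symm i).1 = 1 then T1 (finProdFinEquiv.symm i).2
    else B' (finProdFinEquiv.symm i).2
  have hLC : ∀ i, LC (F i) s := by
    intro i
    show LC (if (finProdFinEquiv.symm i).1 = 0 then T0 (finProdFinEquiv.symm i).2
      else if (finProdFinEquiv.symm i).1 = 1 then T1 (finProdFinEquiv.symm i).2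
      else B' (finProdFinEquiv.symm i).2) s
    split_ifs
    · exact LC_mono (hPFM n _ _) (hLB _).1
    · exact LC_mono (hPFM n _ _) (hLB _).1
    · exact LC_mono (hPFM n _ _) (hLB _).2
  have hgrs : 2 ^ m * m.choose q * ∑ j, Nq q (F j) < 2 ^ n * n.choose q := by
    have h1 : ((2 ^ m * m.choose q * ∑ j, Nq q (F j) : ℕ) : ℝ) < ((2 ^ n * n.choose q : ℕ) : ℝ) := by
      push_cast
      refine lt_of_le_of_lt (mul_le_mul_of_nonneg_left ?_ (by positivity)) hnum
      calc (∑ j, (Nq q (F j) : ℝ))
          ≤ ∑ _j : Fin (3 * k), 2 ^ n * ((2 / κ) ^ q * Real.exp (κ ^ 2 * s)) :=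
            sum_le_sum fun i _ => hNQB n q s (F i) κ (hLC i) hκ
        _ = (3 * k) * (2 ^ n * ((2 / κ) ^ q * Real.exp (κ ^ 2 * s))) := by
            rw [sum_const, card_univ, Fintype.card_fin, nsmul_eq_mul]
            push_cast
            rfl
    exact_mod_cast h1
  obtain ⟨K, ρ, hK, hder⟩ := hGR2 n m q (3 * k) F hmn hqm hgrs
  have hq1 : q - 1 + 1 = q := by omega
  refine hDL2 n m (q - 1) k T0 T1 B' K ρ hK h5 ?_ ?_
  · intro j x I hIK hIq
    rw [hq1] at hIq
    refine ⟨?_, ?_, ?_⟩
    · have h := hder (finProdFinEquiv (0, j)) x I hIK hIq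
      have hF : F (finProdFinEquiv (0, j)) = T0 j := by
        show (if (finProdFinEquiv.symm (finProdFinEquiv ((0 : Fin 3), j))).1 = 0 then
          T0 (finProdFinEquiv.symm (finProdFinEquiv ((0 : Fin 3), j))).2
          else if (finProdFinEquiv.symm (finProdFinEquiv ((0 : Fin 3), j))).1 = 1 then
            T1 (finProdFinEquiv.symm (finProdFinEquiv ((0 : Fin 3), j))).2
          else B' (finProdFinEquiv.symm (finProdFinEquiv ((0 : Fin 3), j))).2) = _
        rw [Equiv.symm_apply_apply, if_pos rfl]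
      rwa [hF] at h
    · have h := hder (finProdFinEquiv (1, j)) x I hIK hIq
      have hF : F (finProdFinEquiv (1, j)) = T1 j := by
        show (if (finProdFinEquiv.symm (finProdFinEquiv ((1 : Fin 3), j))).1 = 0 then
          T0 (finProdFinEquiv.symm (finProdFinEquiv ((1 : Fin 3), j))).2
          else if (finProdFinEquiv.symm (finProdFinEquiv ((1 : Fin 3), j))).1 = 1 then
            T1 (finProdFinEquiv.symm (finProdFinEquiv ((1 : Fin 3), j))).2
          else B' (finProdFinEquiv.symm (finProdFinEquiv ((1 : Fin 3), j))).2) = _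
        rw [Equiv.symm_apply_apply]
        show (if (1 : Fin 3) = 0 then T0 j else if (1 : Fin 3) = 1 then T1 j else B' j) = _
        rw [if_neg (by decide), if_pos rfl]
      rwa [hF] at h
    · have h := hder (finProdFinEquiv (2, j)) x I hIK hIq
      have hF : F (finProdFinEquiv (2, j)) = B' j := by
        show (if (finProdFinEquiv.symm (finProdFinEquiv ((2 : Fin 3), j))).1 = 0 then
          T0 (finProdFinEquiv.symm (finProdFinEquiv ((2 : Fin 3), j))).2
          else if (finProdFinEquiv.symm (finProdFinEquiv ((2 : Fin 3), j))).1 = 1 then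
            T1 (finProdFinEquiv.symm (finProdFinEquiv ((2 : Fin 3), j))).2
          else B' (finProdFinEquiv.symm (finProdFinEquiv ((2 : Fin 3), j))).2) = _
        rw [Equiv.symm_apply_apply]
        show (if (2 : Fin 3) = 0 then T0 j else if (2 : Fin 3) = 1 then T1 j else B' j) = _
        rw [if_neg (by decide), if_neg (by decide)]
      rwa [hF] at h
  · intro x
    obtain ⟨j, h1, h2, h3⟩ := hlist x
    have hval : ∀ i : Fin k, (if B' i x then T1 i x else T0 i x) =
        (L i).eval (asg x ((B i).eval (asg x false))) := by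
      intro i
      show (if (B i).eval (asg x false) = true then (L i).eval (asg x true)
        else (L i).eval (asg x false)) = _
      cases hb : (B i).eval (asg x false) with
      | false => rw [if_neg (by decide)]
      | true => rw [if_pos rfl]
    refine ⟨j, ?_, ?_, h3⟩
    · rw [hval]; exact h1
    · intro i hi
      rw [hval]; exact h2 i hi

end Pool.Agent.FU2.H42
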