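import Pool.Agent.FU2.Stmts
import Pool.Agent.Helper42_FU2.EXP
import Pool.Agent.Helper42_FU2.FI2

/-!
Assembly of the theorem for prescribed premises.
-/

set_option autoImplicit false

open Finset

namespace Pool.Agent.FU2.H42

open Pool.Agent.FUR

/-- the lower bound -/
def FI3Stmt : Prop := ∃ c : ℝ, 0 < c ∧ ∀ n : ℕ, 1 ≤ n →
  ((QPar n).Closed ∧ ¬ (QPar n).IsTrue ∧ n ≤ (QPar n).size ∧ (QPar n).size ≤ 34 * n) ∧
  ∀ R : Set Rule, (∀ r ∈ R, r.Sound) → ∀ (s : ℕ) (P : Finset PF), (QPar n).size ≤ s →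
    (∀ L ∈ P, L.size ≤ s) → ∀ (Λ : List PF) (k : ℕ), RefP (QPar n) R P Λ k → PF.cst false ∈ Λ →
    (2 : ℝ) ^ (c * ((QPar n).size : ℝ) ^ 2 / s) ≤ 2 * P.card

theorem LC_and {N : ℕ} {f g : BF N} {s t : ℕ} (hf : LC f s) (hg : LC g t) :
    LC (fun x => f x && g x) (s + t) := by
  obtain ⟨F, h1, h2⟩ := hf
  obtain ⟨G, h3, h4⟩ := hg
  refine ⟨Fm.and F G, fun x => ?_, ?_⟩
  · show (F.ev x && G.ev x) = _
    rw [h1, h3]
  · show F.lv + G.lv ≤ s + t
    omega

theorem fi3 (hNQB : NQBStmt) (hGR2 : GR2Stmt) (hDL2 : DL2Stmt) (hNU2 : NU2Stmt)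
    (hSEM : SEMStmt) (hMAT : MATStmt) (hPFM : PFMStmt) (hSZQ : SZQStmt) (hFLS : FLSStmt) :
    FI3Stmt := by
  obtain ⟨c, hc, hN⟩ := hNU2
  refine ⟨c / (2 * 34 ^ 2), by positivity, fun n hn1 => ?_⟩
  obtain ⟨hsz, hcl⟩ := hSZQ n hn1
  refine ⟨⟨hcl, hFLS n hn1, by omega, by omega⟩, ?_⟩
  intro R hR s P hs hP Λ k hΛ hbot
  by_contra hcon
  rw [not_le] at hcon
  have hns : n ≤ s := by omega
  obtain ⟨ls, hnd, hmem, hlist⟩ := exp1 hSEM hMAT n hn1 R hR P Λ k hΛ hbot
  set M := ls.length with hM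
  have hMP : M ≤ P.card := by
    classical
    have h1 : ls.toFinset ⊆ P := fun L hL => hmem L (List.mem_toFinset.1 hL)
    have h2 := card_le_card h1
    rwa [List.toFinset_card_of_nodup hnd] at h2
  have hMP' : (M : ℝ) ≤ P.card := by exact_mod_cast hMP
  have hsz34 : ((QPar n).size : ℝ) ≤ 34 * (n : ℝ) := by
    have : (QPar n).size ≤ 34 * n := by omega
    exact_mod_cast this
  have hlt : 2 * (M : ℝ) < (2 : ℝ) ^ (c * (n : ℝ) ^ 2 / ((2 * s : ℕ) : ℝ)) := by
    have h0 : 2 * (M : ℝ) ≤ 2 * P.card := by linarith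
    refine (h0.trans_lt hcon).trans_le (Real.rpow_le_rpow_of_exponent_le one_le_two ?_)
    have h1 : ((QPar n).size : ℝ) ^ 2 ≤ (34 * (n : ℝ)) ^ 2 :=
      pow_le_pow_left₀ (by positivity) hsz34 2
    have hspos : (0 : ℝ) < s := by
      have : (1 : ℝ) ≤ s := by exact_mod_cast hn1.trans hns
      linarith
    push_cast
    rw [div_le_div_iff₀ hspos (by positivity)]
    have h3 : c / (2 * 34 ^ 2) * ((QPar n).size : ℝ) ^ 2 ≤ c * (n : ℝ) ^ 2 / 2 := by
      calc c / (2 * 34 ^ 2) * ((QPar n).size : ℝ) ^ 2 ≤ c / (2 * 34 ^ 2) * (34 * (n : ℝ)) ^ 2 :=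
            mul_le_mul_of_nonneg_left h1 (by positivity)
        _ = c * (n : ℝ) ^ 2 / 2 := by ring
    nlinarith
  obtain ⟨q, m, κ, hκ, hq, hqm, hmn, h5, hnum⟩ := hN n (2 * s) M hn1 (by omega) hlt
  -- the functions
  let T : Fin M → BF n := fun j x => tt (ls.get j) x
  let B' : Fin M → BF n := fun j x => (ls.get j).eval (asg x false)
  let F : Fin (3 * M) → BF n := fun i =>
    if (finProdFinEquiv.symm i).1 = 0 then T (finProdFinEquiv.symm i).2
    else if (finProdFinEquiv.symm i).1 = 1 then T (finProdFinEquiv.symm i).2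
    else B' (finProdFinEquiv.symm i).2
  have hsize : ∀ j : Fin M, (ls.get j).size ≤ s := fun j => hP _ (hmem _ (List.get_mem ls j))
  have hT : ∀ j : Fin M, LC (T j) (2 * s) := by
    intro j
    have h := LC_and (LC_mono (hPFM n (ls.get j) false) (hsize j))
      (LC_mono (hPFM n (ls.get j) true) (hsize j))
    rw [two_mul]
    exact h
  have hB : ∀ j : Fin M, LC (B' j) (2 * s) := by
    intro j
    exact LC_mono (hPFM n (ls.get j) false) ((hsize j).trans (by omega))
  have hLC : ∀ i, LC (F i) (2 * s) := by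
    intro i
    show LC (if (finProdFinEquiv.symm i).1 = 0 then T (finProdFinEquiv.symm i).2
      else if (finProdFinEquiv.symm i).1 = 1 then T (finProdFinEquiv.symm i).2
      else B' (finProdFinEquiv.symm i).2) (2 * s)
    split_ifs
    · exact hT _
    · exact hT _
    · exact hB _
  have hgrs : 2 ^ m * m.choose q * ∑ j, Nq q (F j) < 2 ^ n * n.choose q := by
    have h1 : ((2 ^ m * m.choose q * ∑ j, Nq q (F j) : ℕ) : ℝ) < ((2 ^ n * n.choose q : ℕ) : ℝ) := by
      push_cast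
      refine lt_of_le_of_lt (mul_le_mul_of_nonneg_left ?_ (by positivity)) hnum
      calc (∑ j, (Nq q (F j) : ℝ))
          ≤ ∑ _j : Fin (3 * M), 2 ^ n * ((2 / κ) ^ q * Real.exp (κ ^ 2 * ((2 * s : ℕ) : ℝ))) :=
            sum_le_sum fun i _ => hNQB n q (2 * s) (F i) κ (hLC i) hκ
        _ = (3 * M) * (2 ^ n * ((2 / κ) ^ q * Real.exp (κ ^ 2 * ((2 * s : ℕ) : ℝ)))) := by
            rw [sum_const, card_univ, Fintype.card_fin, nsmul_eq_mul]
            push_cast
            rfl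
    exact_mod_cast h1
  obtain ⟨K, ρ, hK, hder⟩ := hGR2 n m q (3 * M) F hmn hqm hgrs
  have hq1 : q - 1 + 1 = q := by omega
  have hder0 : ∀ j x (I : Finset (Fin n)), I ⊆ K → I.card = q → dv I (ind (T j)) (ov K ρ x) = 0 := by
    intro j x I hIK hIq
    have h := hder (finProdFinEquiv (0, j)) x I hIK hIq
    have hF : F (finProdFinEquiv (0, j)) = T j := by
      show (if (finProdFinEquiv.symm (finProdFinEquiv ((0 : Fin 3), j))).1 = 0 then
        T (finProdFinEquiv.symm (finProdFinEquiv ((0 : Fin 3), j))).2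
        else if (finProdFinEquiv.symm (finProdFinEquiv ((0 : Fin 3), j))).1 = 1 then
          T (finProdFinEquiv.symm (finProdFinEquiv ((0 : Fin 3), j))).2
        else B' (finProdFinEquiv.symm (finProdFinEquiv ((0 : Fin 3), j))).2) = _
      rw [Equiv.symm_apply_apply, if_pos rfl]
    rwa [hF] at h
  refine hDL2 n m (q - 1) M T T B' K ρ hK h5 ?_ ?_
  · intro j x I hIK hIq
    rw [hq1] at hIq
    refine ⟨hder0 j x I hIK hIq, hder0 j x I hIK hIq, ?_⟩
    have h := hder (finProdFinEquiv (2, j)) x I hIK hIq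
    have hF : F (finProdFinEquiv (2, j)) = B' j := by
      show (if (finProdFinEquiv.symm (finProdFinEquiv ((2 : Fin 3), j))).1 = 0 then
        T (finProdFinEquiv.symm (finProdFinEquiv ((2 : Fin 3), j))).2
        else if (finProdFinEquiv.symm (finProdFinEquiv ((2 : Fin 3), j))).1 = 1 then
          T (finProdFinEquiv.symm (finProdFinEquiv ((2 : Fin 3), j))).2
        else B' (finProdFinEquiv.symm (finProdFinEquiv ((2 : Fin 3), j))).2) = _
      rw [Equiv.symm_apply_apply]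
      show (if (2 : Fin 3) = 0 then T j else if (2 : Fin 3) = 1 then T j else B' j) = _
      rw [if_neg (by decide), if_neg (by decide)]
    rwa [hF] at h
  · intro x
    obtain ⟨j, h1, h2, h3⟩ := hlist x
    have hval : ∀ i : Fin M, (if B' i x then T i x else T i x) = tt (ls.get i) x := by
      intro i
      split_ifs <;> rfl
    refine ⟨j, ?_, ?_, h3⟩
    · rw [hval]; exact h1
    · intro i hi
      rw [hval]; exact h2 i hi

/-- a refutation with `k` reductions of small formulas has at most `k` premises -/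
theorem ref_refP {Φ : QBF} {R : Set Rule} {s : ℕ} {Λ : List PF} {k : ℕ} (h : Ref Φ R s Λ k) :
    ∃ P : Finset PF, (∀ L ∈ P, L.size ≤ s) ∧ P.card ≤ k ∧ RefP Φ R P Λ k := by
  classical
  have mono : ∀ {P P' : Finset PF}, P ⊆ P' → ∀ {Λ : List PF} {k : ℕ}, RefP Φ R P Λ k →
      RefP Φ R P' Λ k := by
    intro P P' hPP Λ k h
    induction h with
    | nil => exact RefP.nil
    | clause _ c hc ih => exact RefP.clause ih c hc
    | rule _ r hr τ hp ih => exact RefP.rule ih r hr τ hp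
    | red _ L hL u hu hin hlast B hB L' hP he ih =>
      exact RefP.red ih L hL u hu hin hlast B hB L' (hPP hP) he
  induction h with
  | nil => exact ⟨∅, by simp, by simp, RefP.nil⟩
  | clause _ c hc ih =>
    obtain ⟨P, h1, h2, h3⟩ := ih
    exact ⟨P, h1, h2, RefP.clause h3 c hc⟩
  | rule _ r hr τ hp ih =>
    obtain ⟨P, h1, h2, h3⟩ := ih
    exact ⟨P, h1, h2, RefP.rule h3 r hr τ hp⟩
  | red _ L hL u hu hin hlast B hB hs hs' ih =>
    obtain ⟨P, h1, h2, h3⟩ := ih
    refine ⟨insert L P, ?_, ?_, ?_⟩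
    · intro A hA
      rcases mem_insert.1 hA with rfl | hA
      · exact hs
      · exact h1 A hA
    · exact (card_insert_le _ _).trans (by omega)
    · exact RefP.red (mono (subset_insert L P) h3) L hL u hu hin hlast B hB L (mem_insert_self L P)
        (fun _ => rfl)

end Pool.Agent.FU2.H42
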