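import Pool.Agent.FU2.Stmts

/-!
# FU2 rows OBL and LIT: negation and literals
-/

set_option autoImplicit false

open Finset

namespace Pool.Agent.FU2.H42

open Pool.Agent.FUR

variable {N : ℕ}

theorem fc_lin (a b : ℝ) (u w : RF N) (S : Finset (Fin N)) :
    fc (fun x => a * u x + b * w x) S = a * fc u S + b * fc w S := by
  unfold fc
  rw [mul_div_assoc', mul_div_assoc', ← add_div, mul_sum, mul_sum, ← sum_add_distrib]
  congr 1
  refine sum_congr rfl fun x _ => ?_
  ring

/-- the bilinear form -/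
noncomputable def bf (t : ℝ) (u w : RF N) : ℝ :=
  ∑ S : Finset (Fin N), t ^ (2 * S.card) * (fc u S * fc w S)

theorem wn_lin (t a b : ℝ) (u w : RF N) :
    wn t (fun x => a * u x + b * w x) =
      a ^ 2 * wn t u + b ^ 2 * wn t w + 2 * (a * b) * bf t u w := by
  unfold wn bf
  rw [mul_sum, mul_sum, mul_sum, ← sum_add_distrib, ← sum_add_distrib]
  refine sum_congr rfl fun S _ => ?_
  rw [fc_lin]
  ring

theorem wn_nonneg {t : ℝ} (ht : 0 < t) (g : RF N) : 0 ≤ wn t g := by
  unfold wn
  exact sum_nonneg fun S _ => mul_nonneg (pow_nonneg ht.le _) (sq_nonneg _)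

theorem ind_idem (f : BF N) (x : Fin N → Bool) : ind f x * ind f x = ind f x := by
  unfold ind
  split_ifs <;> simp

theorem obl : OBLStmt := by
  intro N f t C ht hC H g
  set u : RF N := fun x => ind f x * g x with hu
  set w : RF N := fun x => (1 - ind f x) * g x with hw
  have hg : wn t g = wn t u + wn t w + 2 * bf t u w := by
    have h1 : g = fun x => 1 * u x + 1 * w x := by
      funext x
      simp only [hu, hw]
      ring
    have h2 := wn_lin t 1 1 u w
    rw [← h1] at h2
    rw [h2]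
    ring
  have key : ∀ a b : ℝ, a ^ 2 * wn t u ≤
      C * (a ^ 2 * wn t u + b ^ 2 * wn t w + 2 * (a * b) * bf t u w) := by
    intro a b
    have h1 := H (fun x => a * u x + b * w x)
    rw [wn_lin] at h1
    have h2 : (fun x => ind f x * (a * u x + b * w x)) = fun x => a * u x + 0 * w x := by
      funext x
      simp only [hu, hw]
      have h3 := ind_idem f x
      linear_combination (a * g x - b * g x) * h3
    rw [h2, wn_lin] at h1
    have h4 : a ^ 2 * wn t u + 0 ^ 2 * wn t w + 2 * (a * 0) * bf t u w = a ^ 2 * wn t u := by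
      ring
    rw [h4] at h1
    exact h1
  have hu0 := wn_nonneg ht u
  have hw0 := wn_nonneg ht w
  have hg0 := wn_nonneg ht g
  rcases hu0.eq_or_lt with h | h
  · -- `u = 0`
    have hz : ∀ S : Finset (Fin N), fc u S = 0 := by
      intro S
      have h1 : ∑ S : Finset (Fin N), t ^ (2 * S.card) * fc u S ^ 2 = 0 := h.symm
      rw [sum_eq_zero_iff_of_nonneg fun S _ =>
        mul_nonneg (pow_nonneg ht.le _) (sq_nonneg _)] at h1
      have h2 := h1 S (mem_univ S)
      rcases mul_eq_zero.1 h2 with h3 | h3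
      · exact absurd h3 (pow_pos ht _).ne'
      · exact pow_eq_zero_iff two_ne_zero |>.1 h3
    have hb : bf t u w = 0 := by
      unfold bf
      refine sum_eq_zero fun S _ => ?_
      rw [hz S]
      ring
    rw [hg, ← h, hb]
    nlinarith
  · rcases hw0.eq_or_lt with h' | h'
    · rw [← h']
      exact mul_nonneg (by linarith) hg0
    · set l : ℝ := Real.sqrt (wn t w / wn t u) with hl
      have hq : 0 < wn t w / wn t u := div_pos h' h
      have hl0 : 0 < l := Real.sqrt_pos.2 hq
      have hl2 : l ^ 2 = wn t w / wn t u := Real.sq_sqrt hq.le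
      have h1 := key l l⁻¹
      have e1 : l ^ 2 * wn t u = wn t w := by
        rw [hl2, div_mul_cancel₀ _ h.ne']
      have e2 : (l⁻¹) ^ 2 * wn t w = wn t u := by
        rw [inv_pow, hl2]
        field_simp
      have e3 : l * l⁻¹ = 1 := mul_inv_cancel₀ hl0.ne'
      rw [e1, e2, e3] at h1
      rw [hg]
      linarith

theorem ch_mul_single (S : Finset (Fin N)) (v : Fin N) (x : Fin N → Bool) :
    ch {v} x * ch S x = ch (symmDiff S {v}) x := by
  unfold ch
  rw [prod_singleton]
  by_cases hv : v ∈ S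
  · have h1 : symmDiff S {v} = S.erase v := by
      ext w
      simp only [mem_symmDiff, mem_singleton, mem_erase]
      constructor
      · rintro (⟨a, b⟩ | ⟨a, b⟩)
        · exact ⟨b, a⟩
        · exact absurd (a ▸ hv) b
      · rintro ⟨a, b⟩
        exact Or.inl ⟨b, a⟩
    rw [h1, ← mul_prod_erase S _ hv, ← mul_assoc]
    have h2 : ((if x v then (-1 : ℝ) else 1) * if x v then (-1 : ℝ) else 1) = 1 := by
      split_ifs <;> norm_num
    rw [h2, one_mul]
  · have h1 : symmDiff S {v} = insert v S := by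
      ext w
      simp only [mem_symmDiff, mem_singleton, mem_insert]
      constructor
      · rintro (⟨a, b⟩ | ⟨a, b⟩)
        · exact Or.inr a
        · exact Or.inl a
      · rintro (a | a)
        · exact Or.inr ⟨a, a ▸ hv⟩
        · refine Or.inl ⟨a, fun hc => hv (hc ▸ a)⟩
    rw [h1, prod_insert hv]

theorem fc_lit (v : Fin N) (b : Bool) (g : RF N) (S : Finset (Fin N)) :
    fc (fun x => ind (fun x => x v == b) x * g x) S =
      (fc g S + (if b then -1 else 1) * fc g (symmDiff S {v})) / 2 := by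
  unfold fc
  have h : ∀ x : Fin N → Bool, ind (fun x => x v == b) x * g x * ch S x =
      (g x * ch S x + (if b then -1 else 1) * (g x * ch (symmDiff S {v}) x)) / 2 := by
    intro x
    rw [← ch_mul_single]
    have hs : ch {v} x = if x v then (-1 : ℝ) else 1 := by
      unfold ch
      rw [prod_singleton]
    rw [hs]
    generalize ch S x = c
    unfold ind
    rcases Bool.eq_false_or_eq_true (x v) with hx | hx <;> cases b <;> simp [hx]
  rw [sum_congr rfl fun x _ => h x, ← sum_div, sum_add_distrib, ← mul_sum]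
  ring

theorem wn_split (t : ℝ) (g : RF N) (v : Fin N) :
    wn t g = ∑ T ∈ (univ.erase v).powerset, (t ^ (2 * T.card) * fc g T ^ 2 +
      t ^ (2 * (T.card + 1)) * fc g (insert v T) ^ 2) := by
  unfold wn
  have h1 : (univ : Finset (Finset (Fin N))) = (insert v (univ.erase v)).powerset := by
    rw [insert_erase (mem_univ v)]
    ext S
    simp
  rw [h1, sum_powerset_insert (notMem_erase v univ), ← sum_add_distrib]
  refine sum_congr rfl fun T hT => ?_
  have hv : v ∉ T := fun h => notMem_erase v univ (mem_powerset.1 hT h)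
  rw [card_insert_of_notMem hv]

theorem lit : LITStmt := by
  intro N v b t g ht
  rw [wn_split t _ v, wn_split t g v, mul_sum]
  refine sum_le_sum fun T hT => ?_
  have hv : v ∉ T := fun h => notMem_erase v univ (mem_powerset.1 hT h)
  rw [fc_lit, fc_lit]
  have h1 : symmDiff T {v} = insert v T := by
    ext w
    simp only [mem_symmDiff, mem_singleton, mem_insert]
    constructor
    · rintro (⟨a, _⟩ | ⟨a, _⟩)
      · exact Or.inr a
      · exact Or.inl a
    · rintro (a | a)
      · exact Or.inr ⟨a, a ▸ hv⟩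
      · exact Or.inl ⟨a, fun hc => hv (hc ▸ a)⟩
  have h2 : symmDiff (insert v T) {v} = T := by
    rw [← h1, symmDiff_assoc, symmDiff_self]
    simp
  rw [h1, h2]
  set a := fc g T
  set c := fc g (insert v T)
  set e : ℝ := if b then -1 else 1 with he
  have he2 : e ^ 2 = 1 := by
    rw [he]
    split_ifs <;> norm_num
  have ht0 : t ≠ 0 := ht.ne'
  have hp : 0 < t ^ (2 * T.card) := pow_pos ht _
  have e1 : t ^ (2 * (T.card + 1)) = t ^ (2 * T.card) * t ^ 2 := by
    rw [mul_add, pow_add]
  rw [e1]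
  have e2 : t ^ (2 * T.card) * ((a + e * c) / 2) ^ 2 +
      t ^ (2 * T.card) * t ^ 2 * ((c + e * a) / 2) ^ 2 =
      t ^ (2 * T.card) * ((1 + t ^ 2) / 4 * (a + e * c) ^ 2) := by
    have : (c + e * a) ^ 2 = (a + e * c) ^ 2 := by
      linear_combination (a ^ 2 - c ^ 2) * he2
    calc _ = t ^ (2 * T.card) * ((a + e * c) ^ 2 / 4 + t ^ 2 * ((c + e * a) ^ 2 / 4)) := by ring
      _ = _ := by rw [this]; ring
  have e3 : ((t + t⁻¹) / 2) ^ 2 * (t ^ (2 * T.card) * a ^ 2 +
      t ^ (2 * T.card) * t ^ 2 * c ^ 2) =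
      t ^ (2 * T.card) * ((1 + t ^ 2) / 4 * ((1 + t⁻¹ ^ 2) * (a ^ 2 + t ^ 2 * c ^ 2))) := by
    have : ((t + t⁻¹) / 2) ^ 2 = (1 + t ^ 2) / 4 * (1 + t⁻¹ ^ 2) := by
      field_simp
      ring
    rw [this]
    ring
  rw [e2, e3]
  apply mul_le_mul_of_nonneg_left _ hp.le
  apply mul_le_mul_of_nonneg_left _ (by positivity)
  have e4 : (1 + t⁻¹ ^ 2) * (a ^ 2 + t ^ 2 * c ^ 2) - (a + e * c) ^ 2 =
      (t⁻¹ * a - e * (t * c)) ^ 2 := by
    have h3 : t⁻¹ * t = 1 := inv_mul_cancel₀ ht0
    linear_combination (2 * a * c * e + c ^ 2 * (t⁻¹ * t + 1)) * h3 +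
      (-c ^ 2 - t ^ 2 * c ^ 2) * he2
  nlinarith [sq_nonneg (t⁻¹ * a - e * (t * c))]

end Pool.Agent.FU2.H42
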